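import Pool.Agent.Lib_helper32.EvenHomeo.SpaceCoordDefs2
import Pool.Agent.Lib_helper32.EvenHomeo.SpaceCoordQ

/-!
# SPACECOORD, the jump along the cut `s = 0`
-/

open Set Metric Topology Filter

namespace Pool.Agent.EvenHomeo

open Pool.Agent.MinHomeo (Amb Sph)

namespace SpaceCoord

theorem jump_eT_add (x y : T) : eT (x + y) = eT x * eT y := by
  unfold eT
  rw [AddCircle.toCircle_add, Circle.coe_mul]

theorem jump_eT_coe (x : ℝ) : eT (x : T) = Complex.exp (((2 * Real.pi * x : ℝ) : ℂ) * Complex.I) := by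
  unfold eT
  have h : AddCircle.toCircle ((x : ℝ) : AddCircle (1 : ℝ)) = Circle.exp (2 * Real.pi / 1 * x) :=
    AddCircle.toCircle_apply_mk x
  rw [h, Circle.coe_exp, div_one]

theorem jump_eT_zero : eT 0 = 1 := by
  unfold eT
  rw [AddCircle.toCircle_zero, Circle.coe_one]

/-- `exp (i ε π) = -1` for `ε = ±1` -/
theorem jump_exp_pi {ε : ℝ} (hε : ε = 1 ∨ ε = -1) :
    Complex.exp (((ε * Real.pi : ℝ) : ℂ) * Complex.I) = -1 := by
  rcases hε with rfl | rfl
  · rw [one_mul, Complex.exp_pi_mul_I]
  · have h : (((-1 * Real.pi : ℝ) : ℂ) * Complex.I) = -((Real.pi : ℂ) * Complex.I) := by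
      push_cast
      ring
    rw [h, Complex.exp_neg, Complex.exp_pi_mul_I]
    norm_num

/-- the computation of the jump, when `arg (-A) = arg A ± π` -/
theorem jump_core {A : ℂ} {y b ε : ℝ} (c : ℂ) (hε : ε = 1 ∨ ε = -1)
    (harg : (-A).arg = A.arg + ε * Real.pi) :
    Q1 (-1) A y b c =
        Q1 1 A y b (c * Complex.exp (((-(ε * Real.pi * b) : ℝ) : ℂ) * Complex.I)) ∧
      Q2 (-1) A y b c =
        Q2 1 A y b (c * Complex.exp (((-(ε * Real.pi * b) : ℝ) : ℂ) * Complex.I)) := by
  have h1 : (((-1 : ℝ) : ℂ) * A) = -A := by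
    push_cast
    ring
  have h2 : (((1 : ℝ) : ℂ) * A) = A := by
    push_cast
    ring
  constructor
  · unfold Q1
    rw [h1, h2, harg]
    have h3 : (((A.arg + ε * Real.pi) * (1 - b) : ℝ) : ℂ) * Complex.I =
        ((ε * Real.pi : ℝ) : ℂ) * Complex.I + ((-(ε * Real.pi * b) : ℝ) : ℂ) * Complex.I +
          ((A.arg * (1 - b) : ℝ) : ℂ) * Complex.I := by
      push_cast
      ring
    rw [h3, Complex.exp_add, Complex.exp_add, jump_exp_pi hε]
    push_cast
    ring
  · unfold Q2
    rw [h1, h2, harg]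
    have h3 : ((-((A.arg + ε * Real.pi) * b) : ℝ) : ℂ) * Complex.I =
        ((-(ε * Real.pi * b) : ℝ) : ℂ) * Complex.I + ((-(A.arg * b) : ℝ) : ℂ) * Complex.I := by
      push_cast
      ring
    rw [h3, Complex.exp_add]
    ring

/-- sine and cosine only depend on `cr θ` -/
theorem jump_sin (θ : ℝ) : Real.sin (2 * Real.pi * θ) = Real.sin (2 * Real.pi * cr θ) := by
  have h : 2 * Real.pi * θ = 2 * Real.pi * cr θ + (round θ : ℤ) * (2 * Real.pi) := by
    unfold cr
    ring
  rw [h, Real.sin_add_int_mul_two_pi]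

theorem jump_cos (θ : ℝ) : Real.cos (2 * Real.pi * θ) = Real.cos (2 * Real.pi * cr θ) := by
  have h : 2 * Real.pi * θ = 2 * Real.pi * cr θ + (round θ : ℤ) * (2 * Real.pi) := by
    unfold cr
    ring
  rw [h, Real.cos_add_int_mul_two_pi]

/-- JUMP: the two formulas at `s = 0` -/
theorem jump : Jump_Stmt := by
  intro r₀ r₁ θ υ hr₀ hr₁ hr
  set ρ : ℝ := (r₀ + r₁) / √2 - 9 / 10 with hρdef
  set S : ℝ := Real.sin (2 * Real.pi * θ) with hS
  set C : ℝ := Real.cos (2 * Real.pi * θ) with hC
  set A : ℂ := ⟨r₁ * S, -(r₀ * S)⟩ with hA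
  set y : ℝ := (r₀ * C + r₁ * C) / √2 - 9 / 10 with hy
  set b : ℝ := bpar ρ 0 θ with hb
  have hsq2 : 0 < √2 := Real.sqrt_pos.2 two_pos
  have hcr0 : cr 0 = 0 := by
    unfold cr
    simp
  have hyρ : y = C * ((r₀ + r₁) / √2) - 9 / 10 := by
    rw [hy]
    ring
  have hpos : 0 < (r₀ + r₁) / √2 := by positivity
  have hC1 : C ≤ 1 := Real.cos_le_one _
  -- the case `b = 0`, `D = 0`
  have hzero : b = 0 → D (1 / 20) ρ θ = 0 → (A ≠ 0 ∨ y ≤ 0) →
      Q1 (-1) A y b (eT υ) = Q1 1 A y b (eT (υ + D (1 / 20) ρ θ)) ∧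
      Q2 (-1) A y b (eT υ) = Q2 1 A y b (eT (υ + D (1 / 20) ρ θ)) := by
    intro h1 h2 h3
    rw [h1, h2, add_zero]
    refine ⟨?_, ?_⟩
    · rw [Q1_b0 (Or.inr rfl) h3, Q1_b0 (Or.inl rfl) h3]
    · rw [Q2_b0, Q2_b0]
  rcases le_or_gt ρ 0 with hρ | hρ
  · refine hzero ?_ (D_nonpos hρ θ) (Or.inr ?_)
    · rw [hb]
      unfold bpar
      rw [if_pos hρ]
    · rw [hyρ]
      have : C * ((r₀ + r₁) / √2) ≤ 1 * ((r₀ + r₁) / √2) :=
        mul_le_mul_of_nonneg_right hC1 hpos.le
      have h2 : (r₀ + r₁) / √2 = ρ + 9 / 10 := by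
        rw [hρdef]
        ring
      linarith
  set m : ℝ := min (1 / 20) ρ with hm
  have hm0 : 0 < m := lt_min (by norm_num) hρ
  have hm1 : m ≤ 1 / 20 := min_le_left _ _
  have hbval : b = max 0 (1 - |cr θ| / m) := by
    rw [hb]
    unfold bpar
    rw [if_neg (not_le.2 hρ), hcr0, abs_zero, max_eq_right (abs_nonneg (cr θ))]
  rcases le_or_gt m |cr θ| with hcr | hcr
  · refine hzero ?_ (D_zero (by norm_num) hcr) ?_
    · rw [hbval]
      apply max_eq_left
      have : 1 ≤ |cr θ| / m := (one_le_div hm0).2 hcr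
      linarith
    · by_contra hcon
      push Not at hcon
      obtain ⟨hA0, hy0⟩ := hcon
      have hS0 : S = 0 := by
        have h1 : A.re = 0 := by rw [hA0, Complex.zero_re]
        have h2 : r₁ * S = 0 := h1
        rcases mul_eq_zero.1 h2 with h3 | h3
        · exact absurd h3 hr₁.ne'
        · exact h3
      have hC0 : 0 < C := by
        by_contra hC2
        push Not at hC2
        have : C * ((r₀ + r₁) / √2) ≤ 0 := mul_nonpos_of_nonpos_of_nonneg hC2 hpos.le
        rw [hyρ] at hy0
        linarith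
      -- `sin = 0` and `cos > 0` force `cr θ = 0`
      have h1 : Real.sin (2 * Real.pi * cr θ) = 0 := by
        rw [← jump_sin]
        exact hS0
      have h2 : 0 < Real.cos (2 * Real.pi * cr θ) := by
        rw [← jump_cos]
        exact hC0
      obtain ⟨n, hn⟩ := Real.sin_eq_zero_iff.1 h1
      have hcr' : |cr θ| ≤ 1 / 2 := by
        unfold cr
        exact abs_sub_round θ
      have h3 : (n : ℝ) = 2 * cr θ := by
        have hpi := Real.pi_pos
        have : (n : ℝ) * Real.pi = 2 * cr θ * Real.pi := by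
          rw [hn]
          ring
        exact mul_right_cancel₀ hpi.ne' this
      have h4 : |(n : ℝ)| ≤ 1 := by
        rw [h3, abs_mul, abs_two]
        linarith
      have h5 : |n| ≤ 1 := by exact_mod_cast h4
      have h6 : n = -1 ∨ n = 0 ∨ n = 1 := by
        rw [abs_le] at h5
        omega
      have h7 : cr θ ≠ 0 := by
        intro h
        rw [h, abs_zero] at hcr
        linarith
      rcases h6 with h6 | h6 | h6
      · have : 2 * Real.pi * cr θ = -Real.pi := by
          rw [← hn, h6]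
          push_cast
          ring
        rw [this, Real.cos_neg, Real.cos_pi] at h2
        linarith
      · rw [h6] at h3
        push_cast at h3
        exact h7 (by linarith)
      · have : 2 * Real.pi * cr θ = Real.pi := by
          rw [← hn, h6]
          push_cast
          ring
        rw [this, Real.cos_pi] at h2
        linarith
  -- the case `b > 0`
  have hlt : |cr θ| / m < 1 := (div_lt_one hm0).2 hcr
  have hb1 : b = 1 - |cr θ| / m := by
    rw [hbval]
    exact max_eq_right (by linarith)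
  have hDval : D (1 / 20) ρ θ = (((1 + cr θ / m) / 2 : ℝ) : T) := by
    rw [D_pos hρ]
    unfold tw
    have h1 : |cr θ / m| < 1 := by
      rw [abs_div, abs_of_pos hm0]
      exact hlt
    rw [abs_lt] at h1
    rw [← hm, min_eq_right h1.2.le, max_eq_right h1.1.le]
  rcases lt_trichotomy (cr θ) 0 with hc | hc | hc
  · -- `cr θ < 0`
    have hS0 : S < 0 := by
      rw [hS, jump_sin]
      apply Real.sin_neg_of_neg_of_neg_pi_lt
      · have := Real.pi_pos
        nlinarith
      · have := Real.pi_pos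
        rw [abs_of_neg hc] at hcr
        nlinarith
    have harg : (-A).arg = A.arg + (-1) * Real.pi := by
      rw [Complex.arg_neg_eq_arg_sub_pi_of_im_pos]
      · ring
      · show 0 < -(r₀ * S)
        nlinarith
    have h1 := jump_core (y := y) (b := b) (eT υ) (Or.inr rfl) harg
    have h2 : eT (υ + D (1 / 20) ρ θ) =
        eT υ * Complex.exp (((-(-1 * Real.pi * b) : ℝ) : ℂ) * Complex.I) := by
      rw [jump_eT_add, hDval, jump_eT_coe]
      congr 4
      rw [hb1, abs_of_neg hc]
      ring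
    rw [h2]
    exact h1
  · -- `cr θ = 0`
    have hS0 : S = 0 := by
      rw [hS, jump_sin, hc, mul_zero, Real.sin_zero]
    have hC0 : C = 1 := by
      rw [hC, jump_cos, hc, mul_zero, Real.cos_zero]
    have hA0 : A = 0 := by
      rw [hA]
      apply Complex.ext
      · show r₁ * S = 0
        rw [hS0, mul_zero]
      · show -(r₀ * S) = 0
        rw [hS0, mul_zero, neg_zero]
    have hyv : y = ρ := by
      rw [hyρ, hC0, one_mul, hρdef]
    have h2 : eT (υ + D (1 / 20) ρ θ) = -eT υ := by
      rw [jump_eT_add, hDval, jump_eT_coe, hc]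
      have : ((2 * Real.pi * ((1 + 0 / m) / 2) : ℝ) : ℂ) * Complex.I =
          (Real.pi : ℂ) * Complex.I := by
        rw [zero_div, add_zero]
        push_cast
        ring
      rw [this, Complex.exp_pi_mul_I]
      ring
    rw [h2, hA0]
    constructor
    · unfold Q1
      push_cast
      simp
    · unfold Q2
      have : q2 0 y = 0 := q2_eq_zero (by rw [hyv]; exact hρ.le)
      rw [this]
      simp
  · -- `cr θ > 0`
    have hS0 : 0 < S := by
      rw [hS, jump_sin]
      apply Real.sin_pos_of_pos_of_lt_pi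
      · have := Real.pi_pos
        positivity
      · have := Real.pi_pos
        rw [abs_of_pos hc] at hcr
        nlinarith
    have harg : (-A).arg = A.arg + 1 * Real.pi := by
      rw [Complex.arg_neg_eq_arg_add_pi_of_im_neg]
      · ring
      · show -(r₀ * S) < 0
        nlinarith
    have h1 := jump_core (y := y) (b := b) (eT υ) (Or.inl rfl) harg
    have h2 : eT (υ + D (1 / 20) ρ θ) =
        eT υ * Complex.exp (((-(1 * Real.pi * b) : ℝ) : ℂ) * Complex.I) := by
      rw [jump_eT_add, hDval, jump_eT_coe]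
      congr 1
      have h3 : (((2 * Real.pi * ((1 + cr θ / m) / 2) : ℝ) : ℂ) * Complex.I) =
          ((-(1 * Real.pi * b) : ℝ) : ℂ) * Complex.I + 2 * (Real.pi : ℂ) * Complex.I := by
        rw [hb1, abs_of_pos hc]
        push_cast
        ring
      rw [h3, Complex.exp_add, Complex.exp_two_pi_mul_I, mul_one]
    rw [h2]
    exact h1

end SpaceCoord

end Pool.Agent.EvenHomeo
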