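import Pool.Agent.Lib_helper30.EvenHomeo.Defs2

/-!
# FREEZE: the freezing step
-/

open Set Metric Topology

namespace Pool.Agent.EvenHomeo

open Pool.Agent.MinHomeo (RotChart)

variable {X : Type} [NormedAddCommGroup X] [NormedSpace ℝ X] {Y B : Type} [MetricSpace Y]
  [MetricSpace B] {M : Type} [MetricSpace M]

/-- no twist at the crossings `k ≠ 0`, `|k| < q` -/
theorem freeze_D0 {lam δ₁ θ : ℝ} {p q : ℕ} (hlam : 0 < lam) (hq : 1 ≤ q)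
    (hpq : Nat.Coprime p q) (hw : lam + 2 * δ₁ < 1 / (q : ℝ)) (hδ₁ : 0 < δ₁)
    (hθ : |cr θ| ≤ δ₁) {k : ℤ} (hk : k ≠ 0) (hkq : |k| < q) (r : ℝ) :
    D lam r (θ + (p : ℝ) / q * k) = 0 := by
  apply D_zero_of_le hlam
  have h1 : ¬ (q : ℤ) ∣ k := by
    intro h
    have h2 := Int.le_of_dvd (abs_pos.2 hk) ((dvd_abs _ _).2 h)
    omega
  have h2 := le_abs_cr_frac hq hpq h1
  have h3 := abs_cr_sub (θ + (p : ℝ) / q * k) θ
  rw [add_sub_cancel_left] at h3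
  linarith

section

variable (b : Base X Y B) {lam δ₁ θ : ℝ} {p q n : ℕ}

theorem freeze_L (hlam : 0 < lam) (hpq : Nat.Coprime p q) (hn : 2 * n + 6 < q)
    (hw : lam + 2 * δ₁ < 1 / (q : ℝ)) (hδ₁ : 0 < δ₁) (hθ : |cr θ| ≤ δ₁) (y : Y) {σ : ℝ}
    (hσ : |σ| ≤ (n : ℝ) + 2) (υ : T) :
    b.L lam ((p : ℝ) / q) (b.ta lam ((p : ℝ) / q) y θ σ υ) =
      b.ta lam ((p : ℝ) / q) y θ (σ + 1) υ := by
  apply b.L_ta
  intro h
  have h1 := abs_le.1 hσ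
  have h2 : (-((n : ℤ) + 2)) ≤ ⌊σ⌋ := Int.le_floor.2 (by push_cast; linarith [h1.1])
  have h3 : ⌊σ⌋ < (n : ℤ) + 3 := Int.floor_lt.2 (by push_cast; linarith [h1.2])
  have := freeze_D0 (k := ⌊σ⌋ + 1) hlam (by omega) hpq hw hδ₁ hθ h
    (abs_lt.2 ⟨by omega, by omega⟩) (b.ρ y)
  exact this

theorem freeze_Ls (hlam : 0 < lam) (hpq : Nat.Coprime p q) (hn : 2 * n + 6 < q)
    (hw : lam + 2 * δ₁ < 1 / (q : ℝ)) (hδ₁ : 0 < δ₁) (hθ : |cr θ| ≤ δ₁) (y : Y) {σ : ℝ}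
    (hσ : |σ| ≤ (n : ℝ) + 2) (υ : T) :
    (b.L lam ((p : ℝ) / q)).symm (b.ta lam ((p : ℝ) / q) y θ σ υ) =
      b.ta lam ((p : ℝ) / q) y θ (σ - 1) υ := by
  apply b.L_symm_ta
  intro h
  have h1 := abs_le.1 hσ
  have h2 : (-((n : ℤ) + 2)) ≤ ⌊σ⌋ := Int.le_floor.2 (by push_cast; linarith [h1.1])
  have h3 : ⌊σ⌋ < (n : ℤ) + 3 := Int.floor_lt.2 (by push_cast; linarith [h1.2])
  exact freeze_D0 hlam (by omega) hpq hw hδ₁ hθ h (abs_lt.2 ⟨by omega, by omega⟩) (b.ρ y)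

/-- change of the time origin -/
theorem freeze_rebase (α : ℝ) (y : Y) {σ : ℝ} (υ : T) {k : ℤ}
    (hD : D lam (b.ρ y) (θ + α * k) = 0) (hs : σ < 0 ↔ k < 0) :
    b.ta lam α y θ σ υ =
      b.ta lam α y (θ + α * k) (σ - k) (υ - if k < 0 then D lam (b.ρ y) θ else 0) := by
  unfold Base.ta
  rw [hD]
  have h1 := b.β_add_s y (σ - k) (θ + α * σ) k
  rw [sub_add_cancel] at h1
  have h2 : θ + α * (k : ℝ) + α * (σ - k) = θ + α * σ := by ring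
  rw [h1, h2]
  by_cases h : k < 0
  · rw [if_pos h, if_pos (hs.2 h)]
    simp
  · rw [if_neg h, if_neg (fun h' => h (hs.1 h'))]
    simp

variable {b} {e : M}

/-- the modulus of continuity along long lines -/
theorem freeze_UC (C : Coord b lam M e) {ε : ℝ} (hlam : 0 < lam) (hpq : Nat.Coprime p q)
    (hn : 2 * n + 6 < q) (hn4 : 4 ≤ n) (hw : lam + 2 * δ₁ < 1 / (q : ℝ)) (hδ₁ : 0 < δ₁)
    (hδ' : δ₁ ≤ 1 / 20) (hUC : UC C ((p : ℝ) / q) n ε) {y : Y} {υ : T}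
    (he : ee (b.ρ y) θ υ ≤ δ₁) {σ₁ σ₂ : ℝ} (hσ : |σ₁| ≤ (n : ℝ) + 2)
    (h12 : |σ₁ - σ₂| ≤ 1 / (n : ℝ)) :
    dist (C.h (b.ta lam ((p : ℝ) / q) y θ σ₁ υ)) (C.h (b.ta lam ((p : ℝ) / q) y θ σ₂ υ)) < ε := by
  have hρ : -(1 / 20) ≤ b.ρ y := by
    have := neg_le_ee (b.ρ y) θ υ
    linarith
  have hθ : |cr θ| ≤ δ₁ := (abs_cr_le_ee _ _ _).trans he
  have hn0 : 1 / (n : ℝ) ≤ 1 / 4 := by
    apply one_div_le_one_div_of_le (by norm_num)
    exact_mod_cast hn4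
  set k : ℤ := round σ₁ with hk
  have hk1 : |σ₁ - k| ≤ 1 / 2 := abs_sub_round σ₁
  have hk2 : |σ₂ - k| ≤ 3 / 4 := by
    have : σ₂ - k = (σ₁ - k) - (σ₁ - σ₂) := by ring
    rw [this]
    have := abs_sub (σ₁ - (k : ℝ)) (σ₁ - σ₂)
    linarith
  by_cases hk0 : k = 0
  · rw [hk0, Int.cast_zero, sub_zero] at hk1 hk2
    exact hUC y θ σ₁ σ₂ υ hρ (by linarith) hk2 h12
  · have hkn : |k| < q := by
      have h1 := abs_le.1 hk1
      have h2 := abs_le.1 hσ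
      have h3 : (k : ℝ) < (n : ℝ) + 3 := by linarith
      have h4 : -((n : ℝ) + 3) < (k : ℝ) := by linarith
      have h5 : k < (n : ℤ) + 3 := by exact_mod_cast h3
      have h6 : -((n : ℤ) + 3) < k := by exact_mod_cast h4
      exact abs_lt.2 ⟨by omega, by omega⟩
    have hD := freeze_D0 hlam (by omega) hpq hw hδ₁ hθ hk0 hkn (b.ρ y)
    have sg : ∀ σ : ℝ, |σ - k| ≤ 3 / 4 → (σ < 0 ↔ k < 0) := by
      intro σ h
      have h1 := abs_le.1 h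
      constructor
      · intro h2
        have h3 : (k : ℝ) < 1 := by linarith
        have h4 : k < 1 := by exact_mod_cast h3
        omega
      · intro h2
        have h3 : k ≤ -1 := by omega
        have h4 : (k : ℝ) ≤ -1 := by exact_mod_cast h3
        linarith
    rw [freeze_rebase b _ y υ hD (sg σ₁ (by linarith)), freeze_rebase b _ y υ hD (sg σ₂ hk2)]
    refine hUC y _ _ _ _ hρ (by linarith) hk2 ?_
    have : σ₁ - k - (σ₂ - k) = σ₁ - σ₂ := by ring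
    rw [this]
    exact h12

end

theorem chi_nonneg (δ₁ x : ℝ) : 0 ≤ chi δ₁ x := le_max_left _ _

theorem chi_le_one (δ₁ x : ℝ) : chi δ₁ x ≤ 1 := max_le zero_le_one (min_le_left _ _)

theorem chi_eq_one {δ₁ x : ℝ} (hδ : 0 < δ₁) (hx : x ≤ δ₁ / 2) : chi δ₁ x = 1 := by
  unfold chi
  have h1 : 2 * x / δ₁ ≤ 1 := by
    rw [div_le_one hδ]
    linarith
  rw [min_eq_left (by linarith), max_eq_right zero_le_one]

theorem freeze [CompactSpace B] [CompactSpace M] (b : Base X Y B) (e : M) (hPush : Push_Stmt)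
    (hK : KMap_Stmt b) (hComp : Comp_Stmt b M e) (hSm : Small_Stmt b M e)
    (hFr : Frozen_Stmt b M e) : Freeze_Stmt b M e := by
  intro lam δ C f p q n ε η hlam hlam' hq8 hpq hα1 hα2 hδ hδ' hf hn4 hnq hUC hε hη
  obtain ⟨η₂, hη₂, hsmall⟩ := hSm lam C η hlam hlam' hη
  set α : ℝ := (p : ℝ) / q with hα
  have hq1 : 1 ≤ q := by omega
  have hq0 : (0 : ℝ) < q := by exact_mod_cast hq1
  have hgap : 0 < 1 / (q : ℝ) - lam := by
    have h1 : lam < 1 / (q : ℝ) := by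
      rw [lt_div_iff₀ hq0]
      nlinarith
    linarith
  -- the constants
  set η₁ : ℝ := min η₂ (1 / 2) with hη₁
  have hη₁0 : 0 < η₁ := lt_min hη₂ (by norm_num)
  have hη₁1 : η₁ < 1 := lt_of_le_of_lt (min_le_right _ _) (by norm_num)
  set δ₁ : ℝ := min δ ((1 / (q : ℝ) - lam) / 3) with hδ₁
  have hδ₁0 : 0 < δ₁ := lt_min hδ (by linarith)
  have hδ₁δ : δ₁ ≤ δ := min_le_left _ _
  have hw : lam + 2 * δ₁ < 1 / (q : ℝ) := by
    have : δ₁ ≤ (1 / (q : ℝ) - lam) / 3 := min_le_right _ _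
    linarith
  set c : ℝ := min (η₁ / 2) δ with hc
  have hc0 : 0 < c := lt_min (by linarith) hδ
  have hc1 : c ≤ η₁ / 2 := min_le_left _ _
  have hc2 : c ≤ δ := min_le_right _ _
  set δ' : ℝ := min (c / 2) (δ₁ / 2) with hδd
  have hδ'0 : 0 < δ' := lt_min (by linarith) (by linarith)
  have hδ'c : δ' ≤ c / 2 := min_le_left _ _
  have hδ'1 : δ' ≤ δ₁ / 2 := min_le_right _ _
  obtain ⟨κ, hκ⟩ := hPush n c η₁ (by omega) hη₁0 hη₁1 hc0 hc1
  obtain ⟨K, O, hO, hsO, hKO, hKta, hKoff⟩ := hK lam p q n c η₁ δ₁ κ hlam hlam' hq1 hpq hα1 hα2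
    (by omega) hnq hc0 (by linarith) hκ hδ₁0 (by linarith) hw
  obtain ⟨C', hC'⟩ := hComp lam C K O hlam hlam' hO hsO hKO
  obtain ⟨f', hf'⟩ := hFr lam α δ' C' hlam hlam' hα1 hα2 hδ'0 (by linarith)
  have hn0 : (4 : ℝ) ≤ n := by exact_mod_cast hn4
  -- facts on the push
  have bd : ∀ (χ u : ℝ), 0 ≤ χ → χ ≤ 1 → |u| ≤ (n : ℝ) + 2 → |κ χ u| ≤ (n : ℝ) + 2 := by
    intro χ u h0 h1 hu
    have h2 := abs_le.1 hu
    have e1 : κ χ ((n : ℝ) + 2) = (n : ℝ) + 2 :=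
      hκ.far χ _ h0 h1 (by rw [abs_of_nonneg (by linarith)]; linarith)
    have e2 : κ χ (-((n : ℝ) + 2)) = -((n : ℝ) + 2) :=
      hκ.far χ _ h0 h1 (by rw [abs_neg, abs_of_nonneg (by linarith)]; linarith)
    have m := (hκ.mono χ h0 h1).monotone
    refine abs_le.2 ⟨?_, ?_⟩
    · rw [← e2]; exact m h2.1
    · rw [← e1]; exact m h2.2
  -- the small tube
  have F0 : ∀ y θ σ υ, ee (b.ρ y) θ υ ≤ δ' → |σ| ≤ 1 + δ' →
      K (b.ta lam α y θ σ υ) = b.ta lam α y θ (κ 1 σ) υ ∧ |κ 1 σ| ≤ η₁ := by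
    intro y θ σ υ he hσ
    refine ⟨?_, hκ.small σ (by linarith)⟩
    have := hKta y θ σ υ (by linarith) (by linarith)
    rw [chi_eq_one hδ₁0 (by linarith)] at this
    exact this
  have n1 : κ 1 δ' = δ' := hκ.near 1 _ zero_le_one le_rfl (by rw [abs_of_pos hδ'0]; linarith)
  have n2 : κ 1 (-δ') = -δ' := hκ.near 1 _ zero_le_one le_rfl
    (by rw [abs_neg, abs_of_pos hδ'0]; linarith)
  have m1 := (hκ.mono 1 zero_le_one le_rfl).monotone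
  have F1 : ∀ x ∈ b.Wt lam α δ', K x ∈ b.Wt lam α δ ∧ K x ∈ b.tube lam α η₂ (-η₂) η₂ := by
    rintro x ⟨y, θ, σ, υ, he, h1, h2, rfl⟩
    obtain ⟨k1, k2⟩ := F0 y θ σ υ he (abs_le.2 ⟨by linarith, h2⟩)
    rw [k1]
    have k3 := abs_le.1 k2
    have k4 : -δ' ≤ κ 1 σ := by rw [← n2]; exact m1 h1
    have hη₂1 : η₁ ≤ η₂ := min_le_left _ _
    exact ⟨⟨y, θ, κ 1 σ, υ, by linarith, by linarith, by linarith [k3.2], rfl⟩,
      ⟨y, θ, κ 1 σ, υ, by linarith, by linarith [k3.1], by linarith [k3.2], rfl⟩⟩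
  have F2 : ∀ x ∈ b.Wm lam α δ', K x ∈ b.Wm lam α δ ∧ K x ∈ b.tube lam α η₂ (-η₂) η₂ := by
    rintro x ⟨y, θ, σ, υ, he, h1, h2, rfl⟩
    obtain ⟨k1, k2⟩ := F0 y θ σ υ he (abs_le.2 ⟨by linarith, by linarith⟩)
    rw [k1]
    have k3 := abs_le.1 k2
    have k4 : κ 1 σ ≤ δ' := by rw [← n1]; exact m1 h2
    have hη₂1 : η₁ ≤ η₂ := min_le_left _ _
    exact ⟨⟨y, θ, κ 1 σ, υ, by linarith, by linarith [k3.1], by linarith, rfl⟩,
      ⟨y, θ, κ 1 σ, υ, by linarith, by linarith [k3.1], by linarith [k3.2], rfl⟩⟩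
  -- the conjugated map along the long tube
  have F3 : ∀ y θ u υ, ee (b.ρ y) θ υ ≤ δ₁ → -((n : ℝ) + 2) ≤ u → u ≤ (n : ℝ) + 1 →
      K (b.ta lam α y θ u υ) ∉ b.Wm lam α δ →
      dist (C.h (K (b.L lam α (b.ta lam α y θ u υ))))
        (C.h (b.L lam α (K (b.ta lam α y θ u υ)))) < ε := by
    intro y θ u υ he h1 h2 hnot
    have hθ : |cr θ| ≤ δ₁ := (abs_cr_le_ee _ _ _).trans he
    have hu : |u| ≤ (n : ℝ) + 2 := abs_le.2 ⟨h1, by linarith⟩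
    have hu1 : |u + 1| ≤ (n : ℝ) + 2 := abs_le.2 ⟨by linarith, by linarith⟩
    set χ := chi δ₁ (ee (b.ρ y) θ υ) with hχ
    have c0 : 0 ≤ χ := chi_nonneg _ _
    have c1 : χ ≤ 1 := chi_le_one _ _
    have mo := hκ.mono χ c0 c1
    rw [hKta y θ u υ he hu] at hnot ⊢
    rw [freeze_L b hlam hpq hnq hw hδ₁0 hθ y hu, hKta y θ (u + 1) υ he hu1,
      freeze_L b hlam hpq hnq hw hδ₁0 hθ y (bd χ u c0 c1 hu)]
    refine freeze_UC C hlam hpq hnq hn4 hw hδ₁0 (by linarith) hUC he (bd χ _ c0 c1 hu1) ?_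
    have hcase : u ≤ -1 - c ∨ c ≤ u := by
      by_contra hcon
      rw [not_or, not_le, not_le] at hcon
      apply hnot
      have a1 : κ χ (-1 - c) < κ χ u := mo hcon.1
      have a2 : κ χ u < κ χ c := mo hcon.2
      rw [hκ.fix' χ c0 c1] at a1
      rw [hκ.near χ c c0 c1 (by rw [abs_of_pos hc0])] at a2
      exact ⟨y, θ, κ χ u, υ, by linarith, by linarith, by linarith, rfl⟩
    have := hκ.step χ u c0 c1 hcase
    rw [show κ χ (u + 1) - (κ χ u + 1) = κ χ (u + 1) - κ χ u - 1 by ring]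
    exact this
  have F4 : ∀ y θ u υ, ee (b.ρ y) θ υ ≤ δ₁ → -((n : ℝ) + 1) ≤ u → u ≤ (n : ℝ) + 2 →
      K (b.ta lam α y θ u υ) ∉ b.Wt lam α δ →
      dist (C.h (K ((b.L lam α).symm (b.ta lam α y θ u υ))))
        (C.h ((b.L lam α).symm (K (b.ta lam α y θ u υ)))) < ε := by
    intro y θ u υ he h1 h2 hnot
    have hθ : |cr θ| ≤ δ₁ := (abs_cr_le_ee _ _ _).trans he
    have hu : |u| ≤ (n : ℝ) + 2 := abs_le.2 ⟨by linarith, h2⟩
    have hu1 : |u - 1| ≤ (n : ℝ) + 2 := abs_le.2 ⟨by linarith, by linarith⟩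
    set χ := chi δ₁ (ee (b.ρ y) θ υ) with hχ
    have c0 : 0 ≤ χ := chi_nonneg _ _
    have c1 : χ ≤ 1 := chi_le_one _ _
    have mo := hκ.mono χ c0 c1
    rw [hKta y θ u υ he hu] at hnot ⊢
    rw [freeze_Ls b hlam hpq hnq hw hδ₁0 hθ y hu, hKta y θ (u - 1) υ he hu1,
      freeze_Ls b hlam hpq hnq hw hδ₁0 hθ y (bd χ u c0 c1 hu)]
    refine freeze_UC C hlam hpq hnq hn4 hw hδ₁0 (by linarith) hUC he (bd χ _ c0 c1 hu1) ?_
    have hcase : u - 1 ≤ -1 - c ∨ c ≤ u - 1 := by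
      by_contra hcon
      rw [not_or, not_le, not_le] at hcon
      apply hnot
      have a1 : κ χ (-c) < κ χ u := mo (by linarith [hcon.1])
      have a2 : κ χ u < κ χ (1 + c) := mo (by linarith [hcon.2])
      rw [hκ.near χ (-c) c0 c1 (by rw [abs_neg, abs_of_pos hc0])] at a1
      rw [hκ.fix χ c0 c1] at a2
      exact ⟨y, θ, κ χ u, υ, by linarith, by linarith, by linarith, rfl⟩
    have := hκ.step χ (u - 1) c0 c1 hcase
    rw [sub_add_cancel] at this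
    rw [show κ χ (u - 1) - (κ χ u - 1) = -(κ χ u - κ χ (u - 1) - 1) by ring, abs_neg]
    exact this
  have F5 : ∀ x, x ∉ b.tube lam α δ₁ (-((n : ℝ) + 2)) ((n : ℝ) + 1) →
      K x = x ∧ K (b.L lam α x) = b.L lam α x := by
    intro x hx
    constructor
    · exact hKoff x fun h => hx (b.tube_mono lam α le_rfl (by linarith) le_rfl h)
    · apply hKoff
      rintro ⟨y, θ, σ, υ, he, h1, h2, h3⟩
      apply hx
      have hθ : |cr θ| ≤ δ₁ := (abs_cr_le_ee _ _ _).trans he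
      have h4 := freeze_Ls b hlam hpq hnq hw hδ₁0 hθ y (σ := σ)
        (abs_le.2 ⟨by linarith, by linarith⟩) υ
      rw [← h3, Equiv.symm_apply_apply] at h4
      exact ⟨y, θ, σ - 1, υ, he, by linarith, by linarith, h4⟩
  have F6 : ∀ x, x ∉ b.tube lam α δ₁ (-((n : ℝ) + 1)) ((n : ℝ) + 2) →
      K x = x ∧ K ((b.L lam α).symm x) = (b.L lam α).symm x := by
    intro x hx
    constructor
    · exact hKoff x fun h => hx (b.tube_mono lam α le_rfl le_rfl (by linarith) h)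
    · apply hKoff
      rintro ⟨y, θ, σ, υ, he, h1, h2, h3⟩
      apply hx
      have hθ : |cr θ| ≤ δ₁ := (abs_cr_le_ee _ _ _).trans he
      have h4 := freeze_L b hlam hpq hnq hw hδ₁0 hθ y (σ := σ)
        (abs_le.2 ⟨by linarith, by linarith⟩) υ
      rw [← h3, Equiv.apply_symm_apply] at h4
      exact ⟨y, θ, σ + 1, υ, he, by linarith, by linarith, h4⟩
  obtain ⟨g1, g2, g3, g4, g5⟩ := hf
  obtain ⟨k1, k2, k3, k4, k5⟩ := hf'
  have hW' : ∀ x, f' x ∈ C'.W α δ' → ∃ s ∈ b.Wm lam α δ', x = C'.h s := by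
    rintro x ⟨s, hs, hsx⟩
    obtain ⟨r, hr, hrx⟩ := k5 s hs
    refine ⟨r, hr, ?_⟩
    rw [hrx, hsx, Homeomorph.symm_apply_apply]
  refine ⟨C', δ', f', hδ'0, by linarith, ⟨k1, k2, k3, k4, k5⟩, ⟨?_, ?_, ?_, ?_⟩, ?_, ?_⟩
  · rintro x ⟨s, hs, rfl⟩
    exact ⟨K s, (F1 s hs).1, (hC' s).symm⟩
  · intro x hx
    obtain ⟨s, hs, rfl⟩ := hW' x hx
    show f (C'.h s) ∈ C.h '' b.Wt lam α δ
    rw [hC']
    exact g4 _ (F2 s hs).1
  · intro x hx
    show dist (f' x) (f x) < ε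
    have hx' : f x ∉ C.h '' b.Wt lam α δ := hx
    obtain ⟨s, rfl⟩ := C'.surj x
    rw [hC'] at hx'
    have h1 : K s ∉ b.Wm lam α δ := fun h => hx' (g4 _ h)
    have h2 : s ∉ b.Wm lam α δ' := fun h => h1 (F2 s h).1
    rw [k2 s h2, hC', hC', g2 _ h1]
    by_cases hs : s ∈ b.tube lam α δ₁ (-((n : ℝ) + 2)) ((n : ℝ) + 1)
    · obtain ⟨y, θ, u, υ, he, h3, h4, rfl⟩ := hs
      exact F3 y θ u υ he h3 h4 h1
    · obtain ⟨h3, h4⟩ := F5 s hs
      rw [h4, h3, dist_self]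
      exact hε
  · intro x hx
    show dist (f'.symm x) (f.symm x) < ε
    have hx' : x ∉ C.h '' b.Wt lam α δ := hx
    obtain ⟨s, rfl⟩ := C'.surj x
    rw [hC'] at hx'
    have h1 : K s ∉ b.Wt lam α δ := fun h => hx' ⟨K s, h, rfl⟩
    have h2 : s ∉ b.Wt lam α δ' := fun h => h1 (F1 s h).1
    rw [k3 s h2, hC', hC', g3 _ h1]
    by_cases hs : s ∈ b.tube lam α δ₁ (-((n : ℝ) + 1)) ((n : ℝ) + 2)
    · obtain ⟨y, θ, u, υ, he, h3, h4, rfl⟩ := hs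
      exact F4 y θ u υ he h3 h4 h1
    · obtain ⟨h3, h4⟩ := F6 s hs
      rw [h4, h3, dist_self]
      exact hε
  · rintro x ⟨s, hs, rfl⟩
    rw [hC', mem_ball]
    exact hsmall α (by linarith) (by linarith) _ (F1 s hs).2
  · intro x hx
    obtain ⟨s, hs, rfl⟩ := hW' x hx
    rw [hC', mem_ball]
    exact hsmall α (by linarith) (by linarith) _ (F2 s hs).2

end Pool.Agent.EvenHomeo
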