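import Pool.Agent.Lib_helper30.EvenHomeo.Defs2

/-!
# PUSH: existence of the push along the lines
-/

open Set Metric Topology

namespace Pool.Agent.EvenHomeo

/-- one bump -/
noncomputable def pushP (μ ν x : ℝ) : ℝ := max 0 (min (μ * x) (ν * (1 - x)))

theorem pushP_nonneg (μ ν x : ℝ) : 0 ≤ pushP μ ν x := le_max_left _ _

theorem pushP_cont (μ ν : ℝ) : Continuous (pushP μ ν) := by
  unfold pushP; fun_prop

theorem pushP_left {μ ν x : ℝ} (hμ : 0 ≤ μ) (hx : x ≤ 0) : pushP μ ν x = 0 :=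
  max_eq_left (min_le_of_left_le (mul_nonpos_of_nonneg_of_nonpos hμ hx))

theorem pushP_right {μ ν x : ℝ} (hν : 0 ≤ ν) (hx : 1 ≤ x) : pushP μ ν x = 0 :=
  max_eq_left (min_le_of_right_le (mul_nonpos_of_nonneg_of_nonpos hν (by linarith)))

theorem pushP_le_one {μ ν x : ℝ} (hμ : 0 ≤ μ) (hμ1 : μ ≤ 1) (hν : 0 ≤ ν) : pushP μ ν x ≤ 1 := by
  rcases le_total x 1 with h | h
  · refine max_le zero_le_one (min_le_of_left_le ?_)
    rcases le_total x 0 with h0 | h0
    · nlinarith
    · nlinarith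
  · rw [pushP_right hν h]; exact zero_le_one

theorem pushP_lip {μ ν x x' : ℝ} (hμ : 0 ≤ μ) (hν : 0 ≤ ν) (h : x ≤ x') :
    pushP μ ν x' ≤ pushP μ ν x + μ * (x' - x) := by
  have h1 : 0 ≤ μ * (x' - x) := mul_nonneg hμ (by linarith)
  have h2 : min (μ * x') (ν * (1 - x')) ≤ min (μ * x) (ν * (1 - x)) + μ * (x' - x) := by
    rw [← min_add_add_right]
    refine min_le_min (by nlinarith) ?_
    have := mul_le_mul_of_nonneg_left h hν
    nlinarith
  refine max_le ?_ ?_
  · have := pushP_nonneg μ ν x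
    linarith
  · have : min (μ * x) (ν * (1 - x)) ≤ pushP μ ν x := le_max_right _ _
    linarith

/-- the profile of the push -/
noncomputable def pushA (n : ℕ) (c μ ν w : ℝ) : ℝ :=
  (Finset.range (n + 1)).sup' ⟨0, by simp⟩
    (fun j => (1 - (j : ℝ) / n) * pushP μ ν (w - c - j))

section

variable {n : ℕ} {c μ ν : ℝ}

theorem pushA_term (hn : 1 ≤ n) (w : ℝ) {j : ℕ} (hj : j ≤ n) :
    (1 - (j : ℝ) / n) * pushP μ ν (w - c - j) ≤ pushA n c μ ν w :=
  Finset.le_sup' (fun j : ℕ => (1 - (j : ℝ) / n) * pushP μ ν (w - c - j))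
    (Finset.mem_range.2 (by omega))

theorem pushA_le (w M : ℝ) (h : ∀ j ≤ n, (1 - (j : ℝ) / n) * pushP μ ν (w - c - j) ≤ M) :
    pushA n c μ ν w ≤ M :=
  Finset.sup'_le _ _ fun j hj => h j (by have := Finset.mem_range.1 hj; omega)

theorem pushA_cont : Continuous (pushA n c μ ν) := by
  have : Continuous fun w => (Finset.range (n + 1)).sup' ⟨0, by simp⟩
      (fun j : ℕ => (1 - (j : ℝ) / n) * pushP μ ν (w - c - j)) := by
    refine Continuous.finset_sup'_apply _ fun j _ => ?_
    have := pushP_cont μ ν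
    fun_prop
  exact this

theorem push_coef_nonneg (hn : 1 ≤ n) {j : ℕ} (hj : j ≤ n) : 0 ≤ 1 - (j : ℝ) / n := by
  have hn0 : (0 : ℝ) < n := by exact_mod_cast hn
  have : (j : ℝ) / n ≤ 1 := (div_le_one hn0).2 (by exact_mod_cast hj)
  linarith

theorem push_coef_le (hn : 1 ≤ n) {j : ℕ} : 1 - (j : ℝ) / n ≤ 1 := by
  have : 0 ≤ (j : ℝ) / n := by positivity
  linarith

theorem pushA_nonneg (hn : 1 ≤ n) (w : ℝ) : 0 ≤ pushA n c μ ν w := by
  refine le_trans ?_ (pushA_term hn w (le_refl n))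
  have hn0 : (n : ℝ) ≠ 0 := by
    have : (0 : ℝ) < n := by exact_mod_cast hn
    exact this.ne'
  rw [div_self hn0]; simp

theorem pushA_left (hn : 1 ≤ n) (hμ : 0 ≤ μ) {w : ℝ} (hw : w ≤ c) : pushA n c μ ν w = 0 := by
  refine le_antisymm (pushA_le _ _ fun j _ => ?_) (pushA_nonneg hn w)
  rw [pushP_left hμ, mul_zero]
  have : (0 : ℝ) ≤ j := by positivity
  linarith

theorem pushA_right (hn : 1 ≤ n) (hν : 0 ≤ ν) {w : ℝ} (hw : (n : ℝ) + c ≤ w) :
    pushA n c μ ν w = 0 := by
  have hn0 : (n : ℝ) ≠ 0 := by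
    have : (0 : ℝ) < n := by exact_mod_cast hn
    exact this.ne'
  refine le_antisymm (pushA_le _ _ fun j hj => ?_) (pushA_nonneg hn w)
  rcases eq_or_lt_of_le hj with rfl | h
  · rw [div_self hn0]; simp
  · rw [pushP_right hν, mul_zero]
    have : (j : ℝ) + 1 ≤ n := by exact_mod_cast h
    linarith

theorem pushA_one (hn : 1 ≤ n) (hμ : 0 ≤ μ) (hν : 0 ≤ ν) : pushA n c μ ν (1 + c) = 0 := by
  refine le_antisymm (pushA_le _ _ fun j _ => ?_) (pushA_nonneg hn _)
  rcases Nat.eq_zero_or_pos j with rfl | h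
  · rw [pushP_right hν, mul_zero]
    simp
  · rw [pushP_left hμ, mul_zero]
    have : (1 : ℝ) ≤ j := by exact_mod_cast h
    linarith

theorem pushA_lip (hn : 1 ≤ n) (hμ : 0 ≤ μ) (hν : 0 ≤ ν) {w w' : ℝ} (h : w ≤ w') :
    pushA n c μ ν w' ≤ pushA n c μ ν w + μ * (w' - w) := by
  refine pushA_le _ _ fun j hj => ?_
  have h1 := pushP_lip (μ := μ) (ν := ν) hμ hν (show w - c - j ≤ w' - c - j by linarith)
  have h2 := pushA_term (μ := μ) (ν := ν) (c := c) hn w hj
  have h3 := push_coef_nonneg hn hj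
  have h4 : 1 - (j : ℝ) / n ≤ 1 := push_coef_le hn
  have h5 : 0 ≤ μ * (w' - w) := mul_nonneg hμ (by linarith)
  calc (1 - (j : ℝ) / n) * pushP μ ν (w' - c - j)
      ≤ (1 - (j : ℝ) / n) * (pushP μ ν (w - c - j) + μ * (w' - w)) := by
        refine mul_le_mul_of_nonneg_left ?_ h3
        refine h1.trans (le_of_eq ?_)
        ring
    _ = (1 - (j : ℝ) / n) * pushP μ ν (w - c - j) + (1 - (j : ℝ) / n) * (μ * (w' - w)) := by ring
    _ ≤ pushA n c μ ν w + 1 * (μ * (w' - w)) :=
        add_le_add h2 (mul_le_mul_of_nonneg_right h4 h5)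
    _ = _ := by ring

theorem pushA_step (hn : 1 ≤ n) (hμ : 0 ≤ μ) (hμ1 : μ ≤ 1) (hν : 0 ≤ ν) {w : ℝ} (hw : c ≤ w) :
    pushA n c μ ν (w + 1) ≤ pushA n c μ ν w ∧
      pushA n c μ ν w ≤ pushA n c μ ν (w + 1) + 1 / n := by
  have hn0 : (0 : ℝ) < n := by exact_mod_cast hn
  constructor
  · refine pushA_le _ _ fun j hj => ?_
    rcases Nat.eq_zero_or_pos j with rfl | h
    · rw [pushP_right hν, mul_zero]
      · exact pushA_nonneg hn w
      · push_cast; linarith
    · obtain ⟨i, rfl⟩ := Nat.exists_eq_succ_of_ne_zero h.ne'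
      have e : w + 1 - c - ((i + 1 : ℕ) : ℝ) = w - c - i := by push_cast; ring
      rw [Nat.succ_eq_add_one, e]
      refine le_trans (mul_le_mul_of_nonneg_right ?_ (pushP_nonneg _ _ _))
        (pushA_term hn w (show i ≤ n by omega))
      have : (i : ℝ) / n ≤ ((i + 1 : ℕ) : ℝ) / n := by
        apply div_le_div_of_nonneg_right _ hn0.le
        push_cast; linarith
      linarith
  · refine pushA_le _ _ fun j hj => ?_
    have hP1 : pushP μ ν (w - c - j) ≤ 1 := pushP_le_one hμ hμ1 hν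
    rcases eq_or_lt_of_le hj with rfl | h
    · rw [div_self hn0.ne', sub_self, zero_mul]
      have := pushA_nonneg (c := c) (μ := μ) (ν := ν) hn (w + 1)
      positivity
    · have h2 := pushA_term (μ := μ) (ν := ν) (c := c) hn (w + 1) (show j + 1 ≤ n by omega)
      have e : w + 1 - c - ((j + 1 : ℕ) : ℝ) = w - c - j := by push_cast; ring
      rw [e] at h2
      have e2 : ((j + 1 : ℕ) : ℝ) / n = (j : ℝ) / n + 1 / n := by push_cast; ring
      rw [e2] at h2
      have h3 : 1 / (n : ℝ) * pushP μ ν (w - c - j) ≤ 1 / n * 1 :=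
        mul_le_mul_of_nonneg_left hP1 (by positivity)
      nlinarith

end

/-- the odd profile -/
noncomputable def pushB (n : ℕ) (c μ ν s : ℝ) : ℝ := pushA n c μ ν s - pushA n c μ ν (-s)

theorem pushB_lip {n : ℕ} {c μ ν : ℝ} (hn : 1 ≤ n) (hc : 0 ≤ c) (hμ : 0 ≤ μ) (hν : 0 ≤ ν)
    {s s' : ℝ} (h : s ≤ s') : pushB n c μ ν s' - pushB n c μ ν s ≤ μ * (s' - s) := by
  have z : ∀ w : ℝ, w ≤ 0 → pushA n c μ ν w = 0 := fun w hw => pushA_left hn hμ (hw.trans hc)
  unfold pushB
  rcases le_total 0 s with h0 | h0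
  · rw [z (-s') (by linarith), z (-s) (by linarith)]
    have := pushA_lip (c := c) hn hμ hν h
    linarith
  · rcases le_total s' 0 with h1 | h1
    · rw [z s' h1, z s h0]
      have := pushA_lip (c := c) hn hμ hν (show -s' ≤ -s by linarith)
      have e : μ * (-s - -s') = μ * (s' - s) := by ring
      rw [e] at this
      linarith
    · rw [z s h0, z (-s') (by linarith)]
      have a1 := pushA_lip (c := c) hn hμ hν h1
      have a2 := pushA_lip (c := c) hn hμ hν (show (0 : ℝ) ≤ -s by linarith)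
      rw [z 0 le_rfl] at a1 a2
      nlinarith

theorem push : Push_Stmt := by
  intro n c η₁ hn hη hη1 hc hcη
  set μ : ℝ := 1 - η₁ / 2 with hμd
  set ν : ℝ := 2 / c with hνd
  have hμ : 0 ≤ μ := by rw [hμd]; linarith
  have hμ1 : μ < 1 := by rw [hμd]; linarith
  have hν : 0 ≤ ν := by rw [hνd]; positivity
  have z : ∀ w : ℝ, w ≤ c → pushA n c μ ν w = 0 := fun w hw => pushA_left hn hμ hw
  refine ⟨fun χ s => s - χ * pushB n c μ ν s, ?_, ?_, ?_, ?_, ?_, ?_, ?_, ?_, ?_⟩
  · have := pushA_cont (n := n) (c := c) (μ := μ) (ν := ν)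
    unfold pushB
    fun_prop
  · intro χ h0 h1 s s' hs
    have hl := pushB_lip (n := n) (c := c) (μ := μ) (ν := ν) hn hc.le hμ hν hs.le
    show s - χ * pushB n c μ ν s < s' - χ * pushB n c μ ν s'
    have h2 : χ * (pushB n c μ ν s' - pushB n c μ ν s) ≤ χ * (μ * (s' - s)) :=
      mul_le_mul_of_nonneg_left hl h0
    have h3 : χ * (μ * (s' - s)) ≤ 1 * (μ * (s' - s)) :=
      mul_le_mul_of_nonneg_right h1 (mul_nonneg hμ (by linarith))
    have h4 : μ * (s' - s) < 1 * (s' - s) := mul_lt_mul_of_pos_right hμ1 (by linarith)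
    nlinarith
  · intro s; simp
  · intro χ s _ _ hs
    have h := abs_le.1 hs
    show s - χ * pushB n c μ ν s = s
    unfold pushB
    rw [z s h.2, z (-s) (by linarith)]
    ring
  · intro χ s _ _ hs
    show s - χ * pushB n c μ ν s = s
    unfold pushB
    have hn0 : (0 : ℝ) ≤ n := by positivity
    rcases le_total 0 s with h0 | h0
    · rw [abs_of_nonneg h0] at hs
      rw [pushA_right hn hν hs, z (-s) (by linarith)]
      ring
    · rw [abs_of_nonpos h0] at hs
      rw [pushA_right hn hν hs, z s (by linarith)]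
      ring
  · intro χ _ _
    show 1 + c - χ * pushB n c μ ν (1 + c) = 1 + c
    unfold pushB
    rw [pushA_one hn hμ hν, z (-(1 + c)) (by linarith)]
    ring
  · intro χ _ _
    show -1 - c - χ * pushB n c μ ν (-1 - c) = -1 - c
    unfold pushB
    have e : -(-1 - c) = 1 + c := by ring
    rw [e, pushA_one hn hμ hν, z (-1 - c) (by linarith)]
    ring
  · intro χ u h0 h1 hu
    show |(u + 1 - χ * pushB n c μ ν (u + 1)) - (u - χ * pushB n c μ ν u) - 1| ≤ 1 / (n : ℝ)
    have hn0 : (0 : ℝ) < n := by exact_mod_cast hn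
    have hinv : 0 ≤ 1 / (n : ℝ) := by positivity
    unfold pushB
    rcases hu with hu | hu
    · rw [z (u + 1) (by linarith), z u (by linarith)]
      obtain ⟨a1, a2⟩ := pushA_step (n := n) (c := c) (μ := μ) (ν := ν) (w := -(u + 1)) hn hμ
        hμ1.le hν (by linarith)
      have e : -(u + 1) + 1 = -u := by ring
      rw [e] at a1 a2
      have e2 : (u + 1 - χ * (0 - pushA n c μ ν (-(u + 1)))) -
          (u - χ * (0 - pushA n c μ ν (-u))) - 1 =
          χ * (pushA n c μ ν (-(u + 1)) - pushA n c μ ν (-u)) := by ring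
      rw [e2, abs_of_nonneg (mul_nonneg h0 (by linarith))]
      calc χ * (pushA n c μ ν (-(u + 1)) - pushA n c μ ν (-u)) ≤ 1 * (1 / (n : ℝ)) :=
            mul_le_mul h1 (by linarith) (by linarith) zero_le_one
        _ = 1 / (n : ℝ) := one_mul _
    · rw [z (-(u + 1)) (by linarith), z (-u) (by linarith)]
      obtain ⟨a1, a2⟩ := pushA_step (n := n) (c := c) (μ := μ) (ν := ν) (w := u) hn hμ
        hμ1.le hν hu
      have e2 : (u + 1 - χ * (pushA n c μ ν (u + 1) - 0)) -
          (u - χ * (pushA n c μ ν u - 0)) - 1 =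
          χ * (pushA n c μ ν u - pushA n c μ ν (u + 1)) := by ring
      rw [e2, abs_of_nonneg (mul_nonneg h0 (by linarith))]
      calc χ * (pushA n c μ ν u - pushA n c μ ν (u + 1)) ≤ 1 * (1 / (n : ℝ)) :=
            mul_le_mul h1 (by linarith) (by linarith) zero_le_one
        _ = 1 / (n : ℝ) := one_mul _
  · intro u hu
    show |u - 1 * pushB n c μ ν u| ≤ η₁
    rw [one_mul]
    -- estimate for nonnegative arguments
    have key : ∀ w : ℝ, 0 ≤ w → w ≤ 1 + c / 2 → |w - pushA n c μ ν w| ≤ η₁ := by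
      intro w hw0 hw
      rcases le_total w c with h | h
      · rw [z w h, sub_zero, abs_of_nonneg hw0]; linarith
      · have hup : pushA n c μ ν w ≤ w := by
          have := pushA_lip (n := n) (c := c) (μ := μ) (ν := ν) hn hμ hν hw0
          rw [z 0 hc.le] at this
          nlinarith
        have hlow : μ * (w - c) ≤ pushA n c μ ν w := by
          refine le_trans ?_ (pushA_term hn w (Nat.zero_le n))
          have : (1 - ((0 : ℕ) : ℝ) / n) * pushP μ ν (w - c - ((0 : ℕ) : ℝ)) =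
              pushP μ ν (w - c) := by simp
          rw [this]
          refine le_trans ?_ (le_max_right _ _)
          refine le_min le_rfl ?_
          have h1 : 1 ≤ ν * (1 - (w - c)) := by
            rw [hνd]
            rw [div_mul_eq_mul_div, le_div_iff₀ hc]
            linarith
          nlinarith
        rw [abs_of_nonneg (by linarith)]
        have : w - μ * (w - c) ≤ η₁ := by
          rw [hμd]
          nlinarith
        linarith
    have h := abs_le.1 hu
    unfold pushB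
    rcases le_total 0 u with h0 | h0
    · rw [z (-u) (by linarith), sub_zero]
      exact key u h0 h.2
    · rw [z u (by linarith)]
      have := key (-u) (by linarith) (by linarith)
      rw [← abs_neg]
      have e : -(u - (0 - pushA n c μ ν (-u))) = -u - pushA n c μ ν (-u) := by ring
      rw [e]
      exact this

end Pool.Agent.EvenHomeo
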